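import Pool.Agent.Q233.TFDil

/-!
# MP_405077_mp: the Thomas-Fermi electronic energy increases under uniform dilation
-/

set_option autoImplicit false
open MeasureTheory Set Filter Topology

namespace Pool.Agent.Results.MP_405077_mp.ElectronicDilation

/-- three dimensional Euclidean space -/
abbrev E3 := EuclideanSpace ℝ (Fin 3)

/-- the densities: nonnegative, in `L¹ ∩ L^{5/3}` -/
def Admissible (ρ : E3 → ℝ) : Prop :=
  Measurable ρ ∧ (∀ x, 0 ≤ ρ x) ∧ Integrable ρ ∧ Integrable (fun x => ρ x ^ (5/3 : ℝ))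

/-- the nuclear repulsion `U` -/
noncomputable def U {k : ℕ} (z : Fin k → ℝ) (R : Fin k → E3) : ℝ :=
  ∑ i, ∑ j ∈ Finset.Ioi i, z i * z j / ‖R i - R j‖

/-- the Thomas-Fermi functional, nuclear repulsion included -/
noncomputable def functional {k : ℕ} (γ : ℝ) (z : Fin k → ℝ) (R : Fin k → E3) (ρ : E3 → ℝ) : ℝ :=
  3/5 * γ * (∫ x, ρ x ^ (5/3 : ℝ)) - (∫ x, (∑ j, z j / ‖x - R j‖) * ρ x)
    + 1/2 * (∫ x, ∫ y, ρ x * ρ y / ‖x - y‖) + U z R

/-- the Thomas-Fermi energy `E(λ)` -/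
noncomputable def energy {k : ℕ} (γ : ℝ) (z : Fin k → ℝ) (R : Fin k → E3) (lam : ℝ) : ℝ :=
  sInf {E | ∃ ρ, Admissible ρ ∧ ∫ x, ρ x = lam ∧ functional γ z R ρ = E}

/-- the electronic energy `e(λ) = E(λ) - U` -/
noncomputable def elEnergy {k : ℕ} (γ : ℝ) (z : Fin k → ℝ) (R : Fin k → E3) (lam : ℝ) : ℝ :=
  energy γ z R lam - U z R

open Pool.Agent.Helper557.TFP Pool.Agent.H9R2.TF Pool.Agent.Q233.TFDil in
lemma functional_dl {k : ℕ} {γ : ℝ} (hγ : 0 < γ) (z : Fin k → ℝ) (R : Fin k → E3) {ρ : E3 → ℝ} (h : ∀ x, 0 ≤ ρ x) :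
    functional γ z (fun j => γ • R j) (dl γ ρ) = γ⁻¹ * (EF z R ρ + U z R) := by
  have h1 := dl_EF hγ z R h
  have hU : U z (fun j => γ • R j) = γ⁻¹ * U z R := by
    unfold U
    rw [Finset.mul_sum]
    refine Finset.sum_congr rfl (fun i _ => ?_)
    rw [Finset.mul_sum]
    refine Finset.sum_congr rfl (fun j _ => ?_)
    rw [← smul_sub, norm_smul, Real.norm_of_nonneg hγ.le, div_eq_mul_inv, mul_inv, div_eq_mul_inv]
    ring
  have hk : ∫ x, dl γ ρ x ^ (5/3 : ℝ) = (γ ^ 2)⁻¹ * ∫ x, ρ x ^ (5/3 : ℝ) := by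
    simp only [dl_pow hγ h]
    rw [integral_const_mul, int_inv hγ (fun y => ρ y ^ (5/3 : ℝ))]
    field_simp
  unfold functional
  rw [TF_E1_dbl, hU]
  unfold EF at h1 ⊢
  have h2 : -(∫ x, VV z (fun j => γ • R j) x * dl γ ρ x) + 1/2 * (∫ x, dl γ ρ x * pot (dl γ ρ) x)
      = γ⁻¹ * (-(∫ x, VV z R x * ρ x) + 1/2 * ∫ x, ρ x * pot ρ x) := by
    rw [hk] at h1
    linarith
  have h3 : ∫ x, (∑ j, z j / ‖x - γ • R j‖) * dl γ ρ x = ∫ x, VV z (fun j => γ • R j) x * dl γ ρ x := rfl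
  rw [h3, hk]
  have h4 : 3/5 * γ * ((γ ^ 2)⁻¹ * ∫ x, ρ x ^ (5/3 : ℝ)) = γ⁻¹ * (3/5 * ∫ x, ρ x ^ (5/3 : ℝ)) := by
    field_simp
  rw [h4]
  linarith

open Pool.Agent.Helper557.TFP Pool.Agent.H9R2.TF Pool.Agent.Q233.TFDil Pool.Agent.Q233.TFIon in
lemma elEnergy_eq {k : ℕ} {γ : ℝ} (hγ : 0 < γ) {z : Fin k → ℝ} (hz : ∀ j, 0 ≤ z j) (R : Fin k → E3) {lam : ℝ} (hl : 0 ≤ lam) :
    elEnergy γ z (fun j => γ • R j) lam = γ⁻¹ * el z R lam := by
  have hgi : 0 < γ⁻¹ := by positivity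
  have hdd : ∀ ρ : E3 → ℝ, dl γ (dl γ⁻¹ ρ) = ρ := by
    intro ρ
    funext x
    unfold dl
    rw [smul_smul, inv_inv, mul_inv_cancel₀ hγ.ne', one_smul]
    field_simp
  have hUp : U z (fun j => γ • R j) = γ⁻¹ * U z R := by
    unfold U
    rw [Finset.mul_sum]
    refine Finset.sum_congr rfl (fun i _ => ?_)
    rw [Finset.mul_sum]
    refine Finset.sum_congr rfl (fun j _ => ?_)
    rw [← smul_sub, norm_smul, Real.norm_of_nonneg hγ.le, div_eq_mul_inv, mul_inv, div_eq_mul_inv]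
    ring
  have hE : energy γ z (fun j => γ • R j) lam = γ⁻¹ * (el z R lam + U z R) := by
    have hlow : ∀ E ∈ {E | ∃ ρ, Admissible ρ ∧ ∫ x, ρ x = lam ∧ functional γ z (fun j => γ • R j) ρ = E},
        γ⁻¹ * (el z R lam + U z R) ≤ E := by
      rintro E ⟨ρ, h1, h2, rfl⟩
      have h3 : Adm (dl γ⁻¹ ρ) := dl_adm hgi h1
      have h4 : ∫ x, dl γ⁻¹ ρ x = lam := by rw [dl_mass hgi, h2]
      have h5 := functional_dl hγ z R h3.2.1
      rw [hdd] at h5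
      rw [h5]
      apply mul_le_mul_of_nonneg_left _ hgi.le
      have := csInf_le (el_bdd hz R lam) ⟨dl γ⁻¹ ρ, h3, h4, rfl⟩
      unfold el
      linarith
    obtain ⟨σ, s1, s2⟩ := exists_adm hl
    apply le_antisymm
    · rw [← div_le_iff₀' hgi, ← sub_le_iff_le_add]
      refine le_csInf (el_ne R hl) ?_
      rintro E ⟨ρ, h1, h2, rfl⟩
      rw [sub_le_iff_le_add, div_le_iff₀' hgi, ← functional_dl hγ z R h1.2.1]
      exact csInf_le ⟨_, hlow⟩ ⟨dl γ ρ, dl_adm hγ h1, by rw [dl_mass hγ, h2], rfl⟩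
    · exact le_csInf ⟨_, dl γ σ, dl_adm hγ s1, by rw [dl_mass hγ, s2], rfl⟩ hlow
  unfold elEnergy
  rw [hE, hUp]
  ring

/-- **The Thomas-Fermi electronic energy is monotone increasing under uniform dilation**: for every `γ > 0`,
every number of point nuclei with positive charges `z_j` at positions `R_j`, and every electron number
`lam ≥ 0`, the function `l ↦ e(lam, l) = E(lam, l) - U(l)` is monotone on `(0, ∞)`. -/
theorem result (k : ℕ) (γ : ℝ) (z : Fin k → ℝ) (R : Fin k → E3) (lam : ℝ) (hγ : 0 < γ)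
    (hz : ∀ j, 0 < z j) (hl : 0 ≤ lam) :
    MonotoneOn (fun l : ℝ => elEnergy γ z (fun j => l • R j) lam) (Ioi 0) := by
  have h := Pool.Agent.Q233.TFDil.el_mono (z := z) (fun j => (hz j).le) R hl
  have e : ∀ l : ℝ, 0 < l → elEnergy γ z (fun j => l • R j) lam = γ⁻¹ * Pool.Agent.Q233.TFDil.el z (fun j => (l / γ) • R j) lam := by
    intro l _
    rw [← elEnergy_eq hγ (fun j => (hz j).le) _ hl]
    congr 1
    funext j
    rw [smul_smul, mul_div_cancel₀ _ hγ.ne']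
  intro a ha b hb hab
  have ha' : (0:ℝ) < a := ha
  have hb' : (0:ℝ) < b := hb
  simp only
  rw [e a ha', e b hb']
  exact mul_le_mul_of_nonneg_left (h (show a / γ ∈ Ioi (0:ℝ) from div_pos ha' hγ) (show b / γ ∈ Ioi (0:ℝ) from div_pos hb' hγ)
    (div_le_div_of_nonneg_right hab hγ.le)) (by positivity)

end Pool.Agent.Results.MP_405077_mp.ElectronicDilation
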